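import Mathlib

/-! A reversible one-way cellular automaton given by a table of instructions. -/

set_option autoImplicit false

namespace Pool.Agent.MP_88e1ca_an.Full

/-- values -/
abbrev G (H : ℕ) := ZMod H × ZMod 13

/-- kinds of actions -/
abbrev AK := Fin 4 × Bool

/-- instructions -/
structure Ins where
  snd : Bool
  b : Bool
  i : AK
  a : ℤ
  c : ℤ × ZMod 13
  reg : Bool
  g : Bool
  r : ZMod 13

/-- symbols -/
@[ext] structure Sym (H : ℕ) where
  τ : G H
  ty : Bool
  m : G H
  n : G H
  w : G H

variable {H : ℕ} (P : ZMod H → Ins)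

/-- powers of the clock step -/
def tk (v τ : G H) : G H := (τ.1 + v.1, τ.2 + (P (τ.1 + v.1)).r - (P τ.1).r)

theorem tk_add (u v τ : G H) : tk P v (tk P u τ) = tk P (u + v) τ :=
  Prod.ext (add_assoc _ _ _) (by simp only [tk, Prod.fst_add, add_assoc]; ring)

theorem tk_zero (τ : G H) : tk P 0 τ = τ := by simp [tk]

/-- add to a register -/
def addr (reg : Bool) (x : G H) (s : Sym H) : Sym H :=
  ⟨s.τ, s.ty, s.m + if reg then 0 else x, s.n + if reg then x else 0, s.w⟩

theorem addr_zero (reg : Bool) (s : Sym H) : addr reg 0 s = s := by simp [addr]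

theorem addr_add (reg : Bool) (x y : G H) (s : Sym H) :
    addr reg y (addr reg x s) = addr reg (x + y) s := by
  cases reg <;> simp [addr, add_assoc]

/-- actions -/
def act (i : AK) (v : G H) (s : Sym H) : Sym H :=
  if s.ty = i.2 then
    (if i.1 = 0 then { s with τ := s.τ + v } else if i.1 = 1 then
      { s with w := s.w + if s.τ = 0 then v else 0 } else if i.1 = 2 then
      addr (P s.τ.1).reg (if s.τ.2 = 0 then v * s.w else 0) s else { s with τ := tk P v s.τ })
  else s

theorem act_zero (i : AK) (s : Sym H) : act P i 0 s = s := by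
  simp [act, addr_zero, tk_zero]

theorem act_ty (i : AK) (v : G H) (s : Sym H) : (act P i v s).ty = s.ty := by
  unfold act
  split_ifs <;> rfl

theorem act_ne {i : AK} {s : Sym H} (h : s.ty ≠ i.2) (v : G H) : act P i v s = s := if_neg h

theorem act_add (i : AK) (u v : G H) (s : Sym H) : act P i v (act P i u s) = act P i (u + v) s := by
  by_cases h : s.ty = i.2
  · rw [act, if_pos ((act_ty P i u s).trans h)]
    simp only [act, if_pos h]
    by_cases h0 : i.1 = 0
    · simp [h0, add_assoc]
    by_cases h1 : i.1 = 1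
    · by_cases s.τ = 0 <;> simp [*, add_assoc]
    by_cases h2 : i.1 = 2
    · simp only [if_neg h0, if_neg h1, if_pos h2]
      refine (addr_add _ _ _ _).trans ?_
      by_cases s.τ.2 = 0 <;> simp [*, add_mul, addr]
    · simp [h0, h1, h2, tk_add]
  · simp only [act_ne P h]

/-- the value sent by a relay of type `b` -/
def val (I : Ins) (b : Bool) (m : G H) : G H :=
  if I.snd = true ∧ I.b = b then I.a * m + ((I.c.1 : ZMod H), I.c.2) else 0

/-- the factor of a reading relay of type `b` -/
def fac (I : Ins) (b : Bool) (n : G H) : G H :=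
  if I.snd = false ∧ I.b = b then I.a * (if I.g then n else 1) else 0

/-- the value of the command -/
def cv (s : Sym H) : G H := if s.τ.2 = (P s.τ.1).r then val (P s.τ.1) s.ty s.m else 0

/-- the factor offered to the relay on the left -/
def GG (b : Bool) (s : Sym H) : G H :=
  if s.ty ≠ b ∧ s.τ.2 = (P s.τ.1).r then fac (P s.τ.1) b s.n else 0

/-- index of an action -/
def eC (i : AK) : ZMod 13 := i.1.val + if i.2 then 4 else 0

/-- read functions -/
def hf (l : ZMod 13) (s : Sym H) : G H :=
  if l = 12 then 1 else if l = 8 ∨ l = 9 then (if s.ty = decide (l = 9) then 0 else s.τ)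
  else if l = 10 ∨ l = 11 then GG P (decide (l = 11)) s
  else if eC (P s.τ.1).i = l then cv P s else 0

theorem hf_one (s : Sym H) : hf P 12 s = 1 := rfl

theorem hf_tau (b : Bool) (s : Sym H) :
    hf P (if b then 9 else 8) s = if s.ty = b then 0 else s.τ := by cases b <;> rfl

theorem hf_GG (b : Bool) (s : Sym H) : hf P (if b then 11 else 10) s = GG P b s := by
  cases b <;> rfl

theorem hf_eC (i : AK) (s : Sym H) : hf P (eC i) s = if (P s.τ.1).i = i then cv P s else 0 := by
  have h : ∀ i : AK, eC i ≠ 12 ∧ ¬ (eC i = 8 ∨ eC i = 9) ∧ ¬ (eC i = 10 ∨ eC i = 11) := by decide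
  have k : ∀ i j : AK, eC i = eC j ↔ i = j := by decide
  simp only [hf, if_neg (h i).1, if_neg (h i).2.1, if_neg (h i).2.2, k]

/-- cells -/
abbrev Cell (H : ℕ) := Bool × Sym H

/-- the value read by a relay -/
def rv (a b c : Sym H) : G H := if a.τ = c.τ then hf P a.τ.2 b * GG P a.ty c else 0

/-- the update without the clock step -/
def U (σ : G H) (a b c : Cell H) : Cell H :=
  (a.1, if a.1 then (if b.1 = false ∧ c.1 = true then
    addr (P a.2.τ.1).reg (σ * rv P a.2 b.2 c.2) a.2 else a.2)
    else if b.1 then act P (P b.2.τ.1).i (σ * cv P b.2) a.2 else a.2)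

/-- the clock step -/
def T (v : G H) (a : Cell H) : Cell H := (a.1, if a.1 then { a.2 with τ := tk P v a.2.τ } else a.2)

theorem T_add (u v : G H) (a : Cell H) : T P v (T P u a) = T P (u + v) a := by
  obtain ⟨f, s⟩ := a
  cases f <;> simp [T, tk_add]

theorem T_zero (a : Cell H) : T P 0 a = a := by simp [T, tk_zero]

theorem U_zero (a b c : Cell H) : U P 0 a b c = a := by simp [U, addr_zero, act_zero]

theorem GG_addr (b : Bool) (σ : G H) (c d e : Sym H) :
    GG P b (addr (P c.τ.1).reg (σ * rv P c d e) c) = GG P b c := by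
  by_cases h : c.τ = e.τ ∧ (P c.τ.1).b = c.ty
  · simp only [GG, addr, fac, h.2]
    split_ifs with h1 h2 h3 <;> first | rfl | exact absurd h2.2 h1.1
  · have : rv P c d e = 0 := by
      simp only [rv, GG, fac]
      split_ifs with h1 h2 h3 <;> first | exact mul_zero _ | rfl | exact absurd ⟨h1, h1 ▸ h3.2⟩ h
    rw [this, mul_zero, addr_zero]

theorem cv_addr (σ : G H) (c d e : Sym H) :
    cv P (addr (P c.τ.1).reg (σ * rv P c d e) c) = cv P c := by
  by_cases h : (P c.τ.1).snd = true
  · have : rv P c d e = 0 := by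
      simp only [rv, GG, fac]
      split_ifs with h1 h2 h3 <;> first | exact mul_zero _ | rfl | simp [← h1, h] at h3
    rw [this, mul_zero, addr_zero]
  · simp [cv, val, addr, h]

theorem cv_GG (b : Bool) (c : Sym H) : cv P c = 0 ∨ GG P b c = 0 := by
  cases h : (P c.τ.1).snd <;> simp [cv, GG, val, fac, h]

theorem UU (σ σ' : G H) (a b c d e : Cell H) :
    U P σ' (U P σ a b c) (U P σ b c d) (U P σ c d e) = U P (σ + σ') a b c := by
  obtain ⟨fa, a⟩ := a
  obtain ⟨fb, b⟩ := b
  obtain ⟨fc, c⟩ := c
  have k : ∀ x, rv P (addr (P a.τ.1).reg x a) (act P (P c.τ.1).i (σ * cv P c) b)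
      (if d.1 = false ∧ e.1 = true then addr (P c.τ.1).reg (σ * rv P c d.2 e.2) c else c) =
      rv P a b c := fun x => by
    have : rv P a (act P (P c.τ.1).i (σ * cv P c) b) c = rv P a b c := by
      rcases cv_GG P a.ty c with h | h <;> simp [rv, h, act_zero]
    rw [← this]
    split_ifs
    · rw [rv, GG_addr]
      rfl
    · rfl
  cases fa <;> cases fb <;> cases fc <;> simp [U, act_add, add_mul]
  · split_ifs
    · rw [cv_addr]
      exact act_add P _ _ _ _
    · exact act_add P _ _ _ _
  · rw [k]
    exact addr_add _ _ _ _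

/-- the local rule -/
def φ (a b c : Cell H) : Cell H := T P 1 (U P 1 a b c)

/-- the inverse rule -/
def ψ (a b c : Cell H) : Cell H := U P (-1) (T P (-1) a) (T P (-1) b) (T P (-1) c)

theorem ψφ (a b c d e : Cell H) : ψ P (φ P a b c) (φ P b c d) (φ P c d e) = a := by
  simp [φ, ψ, T_add, T_zero, UU, U_zero]

theorem φψ (a b c d e : Cell H) : φ P (ψ P a b c) (ψ P b c d) (ψ P c d e) = a := by
  simp [φ, ψ, T_add, T_zero, UU, U_zero]

theorem φ_inj {a a' : Cell H} (b c : Cell H) (h : φ P a b c = φ P a' b c) : a = a' := by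
  have k : ∀ a, U P (-1) (U P 1 a b c) b c = a := fun ⟨f, a⟩ => by
    cases f <;> simp only [U, Bool.false_eq_true, if_false, if_true] <;> split_ifs <;>
      first | rfl | skip
    · rw [act_add, ← add_mul, add_neg_cancel, zero_mul, act_zero]
    · refine congrArg _ ((addr_add _ _ _ _).trans ?_)
      show addr _ (1 * rv P a b.2 c.2 + -1 * rv P a b.2 c.2) a = a
      rw [← add_mul, add_neg_cancel, zero_mul, addr_zero]
  have := congrArg (T P (-1)) h
  simp only [φ, T_add, add_neg_cancel, T_zero] at this
  rw [← k a, this, k]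

end Pool.Agent.MP_88e1ca_an.Full
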