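import Pool.Agent.MP_88e1ca_an.Full.A

/-! The register machine and the program that simulates the local rule. -/

set_option autoImplicit false

namespace Pool.Agent.MP_88e1ca_an.Full

/-- data symbols and registers of the relays -/
@[ext] structure St (H : ℕ) where
  A : ℤ → Sym H
  m : ℤ → G H
  n : ℤ → G H

variable {H : ℕ} (P : ZMod H → Ins) (β : ℤ → Bool)

/-- one instruction -/
def step (X : St H) (I : Ins) : St H :=
  ⟨fun j => act P I.i (val I (β j) (X.m j)) (X.A j),
   fun j => X.m j + if I.reg then 0 else hf P I.r (X.A (j + 1)) * fac I (β j) (X.n (j + 1)),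
   fun j => X.n j + if I.reg then hf P I.r (X.A (j + 1)) * fac I (β j) (X.n (j + 1)) else 0⟩

/-- send -/
def snd (b : Bool) (i : AK) (a : ℤ) (c : ℤ × ZMod 13) : Ins := ⟨true, b, i, a, c, false, false, 0⟩

/-- read -/
def rd (b reg : Bool) (a : ℤ) (g : Bool) (r : ZMod 13) : Ins := ⟨false, b, (0, false), a, 0, reg, g, r⟩

/-- act on the data left of the relays of type `b` -/
def op (b : Bool) (i : AK) (v : ℤ → G H) (A : ℤ → Sym H) : ℤ → Sym H :=
  fun j => if β j = b then act P i (v j) (A j) else A j

theorem step_snd (b : Bool) (i : AK) (a : ℤ) (c : ℤ × ZMod 13) (A : ℤ → Sym H) (m n : ℤ → G H) :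
    step P β ⟨A, m, n⟩ (snd b i a c) =
      ⟨op P β b i (fun j => a * m j + ((c.1 : ZMod H), c.2)) A, m, n⟩ := by
  refine St.ext (funext fun j => ?_) (funext fun j => ?_) (funext fun j => ?_) <;>
    simp [step, snd, val, fac, op]
  by_cases h : β j = b
  · simp [h]
  · simp [h, Ne.symm h, act_zero]

theorem step_rdm (b g : Bool) (a : ℤ) (r : ZMod 13) (A : ℤ → Sym H) (m n : ℤ → G H) :
    step P β ⟨A, m, n⟩ (rd b false a g r) = ⟨A, fun j => m j +
      if β j = b then hf P r (A (j + 1)) * (a * if g then n (j + 1) else 1) else 0, n⟩ := by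
  refine St.ext (funext fun j => ?_) (funext fun j => ?_) (funext fun j => ?_) <;>
    simp [step, rd, val, fac, act_zero, eq_comm]

theorem step_rdn (b : Bool) (a : ℤ) (r : ZMod 13) (A : ℤ → Sym H) (m n : ℤ → G H) :
    step P β ⟨A, m, n⟩ (rd b true a false r) = ⟨A, m, fun j => n j +
      if β j = b then hf P r (A (j + 1)) * a else 0⟩ := by
  refine St.ext (funext fun j => ?_) (funext fun j => ?_) (funext fun j => ?_) <;>
    simp [step, rd, val, fac, act_zero, eq_comm]

/-- the product of two read values -/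
def W (r s : ZMod 13) (A : ℤ → Sym H) (j : ℤ) : G H :=
  if β j = false then hf P r (A (j + 1)) * hf P s (A (j + 2)) else 0

/-- add a product to the register -/
def Q (ε : ℤ) (r s : ZMod 13) : List Ins :=
  [rd false false (-ε) true r, rd true true 1 false s, rd false false ε true r,
    rd true true (-1) false s]

/-- act by a product -/
def T2 (i : AK) (ε : ℤ) (r s : ZMod 13) : List Ins :=
  snd false i (-1) 0 :: Q ε r s ++ snd false i 1 0 :: Q (-ε) r s

/-- act by a read value -/
def T1 (i : AK) : List Ins :=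
  [snd true i (-1) 0, rd true false 1 false (eC i), snd true i 1 0, rd true false (-1) false (eC i)]

variable {β} (hβ : ∀ j, β (j + 1) = !β j)
include hβ

theorem run_Q (ε : ℤ) (r s : ZMod 13) (A : ℤ → Sym H) (m n : ℤ → G H) :
    (Q ε r s).foldl (step P β) ⟨A, m, n⟩ = ⟨A, fun j => m j + ε * W P β r s A j, n⟩ := by
  simp only [Q, List.foldl, step_rdm, step_rdn]
  refine St.ext rfl (funext fun j => ?_) (funext fun j => ?_)
  · cases h : β j <;> simp [W, h, hβ, add_assoc, one_add_one_eq_two]
    ring
  · cases h : β j <;> simp [h]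

theorem W_op (r s : ZMod 13) (i : AK) (hs : ∀ v x, hf P s (act P i v x) = hf P s x)
    (v : ℤ → G H) (A : ℤ → Sym H) : W P β r s (op P β false i v A) = W P β r s A := by
  funext j
  cases h : β j
  · have : β (j + 2) = false := by rw [← one_add_one_eq_two, ← add_assoc, hβ, hβ, h]; rfl
    simp [W, op, h, hβ, this, hs]
  · simp [W, h]

theorem run_T2 (i : AK) (ε : ℤ) (r s : ZMod 13) (hs : ∀ v x, hf P s (act P i v x) = hf P s x)
    (A : ℤ → Sym H) (m n : ℤ → G H) :
    (T2 i ε r s).foldl (step P β) ⟨A, m, n⟩ =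
      ⟨op P β false i (fun j => ε * W P β r s A j) A, m, n⟩ := by
  simp only [T2, List.foldl_cons, List.foldl_append, step_snd, run_Q P hβ, W_op P hβ r s i hs]
  refine St.ext (funext fun j => ?_) (funext fun j => ?_) rfl
  · cases h : β j <;> simp [op, h, act_add, Prod.mk_zero_zero]
  · simp

theorem run_T1 (i : AK) (A : ℤ → Sym H) (m n : ℤ → G H) :
    (T1 i).foldl (step P β) ⟨A, m, n⟩ =
      ⟨op P β true i (fun j => hf P (eC i) (A (j + 1))) A, m, n⟩ := by
  simp only [T1, List.foldl, step_snd, step_rdm]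
  refine St.ext (funext fun j => ?_) (funext fun j => ?_) rfl
  · cases h : β j <;> simp [op, h, hβ, act_add, Prod.mk_zero_zero]
  · cases h : β j <;> simp [op, h, hβ]

/-- half a round -/
def half (b : Bool) (r : ZMod 13) (ε : ℤ) : List Ins :=
  [snd false (0, b) 0 (0, -r), snd false (2, b) 0 (-ε, -ε), snd false (0, b) 0 (0, r)] ++
    T2 (0, b) (-1) 12 (if b then 9 else 8) ++ T2 (1, b) ε r (if b then 11 else 10) ++
    T2 (0, b) 1 12 (if b then 9 else 8)

/-- a round -/
def round (b : Bool) (r : ZMod 13) : List Ins := half b r 1 ++ half b r (-1)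

omit hβ in
variable (β) in
/-- add to the register named by the clock -/
def ad (v : ℤ → G H) (A : ℤ → Sym H) : ℤ → Sym H :=
  fun j => if β j = false then addr (P (A j).τ.1).reg (v j) (A j) else A j

/-- the value read by the symbols of type `b` -/
def Z (b : Bool) (A : ℤ → Sym H) (j : ℤ) : G H :=
  if (A j).ty = b then rv P (A j) (A (j + 1)) (A (j + 2)) else 0

omit hβ in
theorem inv_tau (k : Fin 4) (b : Bool) (v : G H) (x : Sym H) :
    hf P (if b then 9 else 8) (act P (k, b) v x) = hf P (if b then 9 else 8) x := by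
  by_cases h : x.ty = b
  · simp [hf_tau, act_ty, h]
  · rw [act_ne P h]

omit hβ in
theorem inv_GG (k : Fin 4) (b : Bool) (v : G H) (x : Sym H) :
    hf P (if b then 11 else 10) (act P (k, b) v x) = hf P (if b then 11 else 10) x := by
  by_cases h : x.ty = b
  · simp [hf_GG, GG, act_ty, h]
  · rw [act_ne P h]

theorem run_round (b : Bool) (r : ZMod 13) (A : ℤ → Sym H) (m n : ℤ → G H) :
    (round b r).foldl (step P β) ⟨A, m, n⟩ =
      ⟨ad P β (fun j => if (A j).τ.2 = r then Z P b A j else 0) A, m, n⟩ := by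
  simp only [round, half, List.foldl_append, List.foldl_cons, List.foldl_nil, step_snd,
    run_T2 P hβ _ _ _ _ (inv_tau P _ b), run_T2 P hβ _ _ _ _ (inv_GG P _ b),
    W_op P hβ _ _ _ (inv_tau P _ b), W_op P hβ _ _ _ (inv_GG P _ b)]
  refine St.ext (funext fun j => ?_) rfl rfl
  cases h : β j
  · simp only [op, ad, Z, W, h, if_true, hf_one, hf_tau, hf_GG, rv]
    generalize A (j + 1) = S1
    generalize A (j + 2) = S2
    generalize A j = S0
    obtain ⟨τ, ty, m, n, w⟩ := S0
    by_cases hb : ty = b
    · subst hb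
      have e1 : ∀ t : G H, t + (0, -r) + (0, r) = t := fun t => by ext <;> simp
      have e2 : ((-1, -1) : G H) = -1 := rfl
      have e3 : ((1, 1) : G H) = 1 := rfl
      by_cases h2 : S2.ty = ty
      · have : GG P ty S2 = 0 := by simp [GG, h2]
        cases hr : (P τ.1).reg <;> by_cases h3 : τ.2 = r <;>
          simp [act, addr, h2, this, e1, e2, e3, hr, h3, add_neg_eq_zero]
      · by_cases h4 : τ = S2.τ
        · subst h4
          cases hr : (P S2.τ.1).reg <;> by_cases h3 : S2.τ.2 = r <;>
            simp [act, addr, h2, e1, e2, e3, add_neg_eq_zero, hr, h3, add_assoc]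
        · cases hr : (P τ.1).reg <;> by_cases h3 : τ.2 = r <;>
            simp [act, addr, h2, e1, e2, e3, add_neg_eq_zero, hr, h3, h4]
    · simp [act, hb, addr_zero]
  · simp [op, ad, h]

omit hβ in
theorem ad_ad (u v : ℤ → G H) (A : ℤ → Sym H) :
    ad P β v (ad P β u A) = ad P β (fun j => u j + v j) A := by
  funext j
  cases h : β j <;> simp only [ad, h, if_true, if_false, Bool.true_eq_false]
  exact addr_add _ _ _ _

theorem Z_ad (b : Bool) (u : ℤ → G H) (A : ℤ → Sym H) {j : ℤ} (h : β j = false)
    (hu : GG P b (addr (P (A (j + 2)).τ.1).reg (u (j + 2)) (A (j + 2))) = GG P b (A (j + 2))) :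
    Z P b (ad P β u A) j = Z P b A j := by
  have : β (j + 2) = false := by rw [← one_add_one_eq_two, ← add_assoc, hβ, hβ, h]; rfl
  simp only [Z, ad, h, hβ, this, if_true, Bool.not_false, Bool.true_eq_false, if_false]
  show (if (A j).ty = b then (if (A j).τ = (A (j + 2)).τ then _ * GG P (A j).ty _ else 0) else 0) = _
  split_ifs with h1 h2
  · rw [h1, hu, rv, if_pos h2, h1]
    rfl
  · rw [rv, if_neg h2]
  · rfl

theorem run_rounds (b : Bool) (l : List (ZMod 13)) (A : ℤ → Sym H) (m n : ℤ → G H) :
    (l.flatMap (round b)).foldl (step P β) ⟨A, m, n⟩ =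
      ⟨ad P β (fun j => (l.map fun r => if (A j).τ.2 = r then Z P b A j else 0).sum) A, m, n⟩ := by
  induction l generalizing A with
  | nil => exact St.ext (funext fun j => by simp [ad, addr_zero]) rfl rfl
  | cons r l ih =>
    rw [List.flatMap_cons, List.foldl_append, run_round P hβ, ih, ad_ad]
    refine St.ext (funext fun j => ?_) rfl rfl
    cases h : β j
    · simp only [ad, h, if_true, List.map_cons, List.sum_cons]
      rw [Z_ad P hβ b _ A h]
      · rfl
      · by_cases k : (A (j + 2)).ty = b
        · simp [GG, addr, k]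
        · simp [Z, k, addr_zero]
    · simp [ad, h]

/-- all rounds -/
def pass (b : Bool) : List Ins := (List.finRange 13).flatMap (round b)

theorem run_pass (b : Bool) (A : ℤ → Sym H) (m n : ℤ → G H) :
    (pass b).foldl (step P β) ⟨A, m, n⟩ = ⟨ad P β (Z P b A) A, m, n⟩ := by
  rw [pass, run_rounds P hβ b (List.finRange 13)]
  congr 2
  funext j
  exact (Fin.sum_univ_def _).symm.trans ((Finset.sum_ite_eq _ _ _).trans (if_pos (Finset.mem_univ _)))

/-- all commands -/
def alpha : List Ins := ((List.finRange 4).flatMap fun k => [(k, false), (k, true)]).flatMap T1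

theorem run_alpha (A : ℤ → Sym H) (m n : ℤ → G H) :
    alpha.foldl (step P β) ⟨A, m, n⟩ = ⟨fun j => if β j = true then
      act P (P (A (j + 1)).τ.1).i (cv P (A (j + 1))) (A j) else A j, m, n⟩ := by
  have : alpha = T1 (0, false) ++ T1 (0, true) ++ T1 (1, false) ++ T1 (1, true) ++ T1 (2, false) ++
    T1 (2, true) ++ T1 (3, false) ++ T1 (3, true) := rfl
  simp only [this, List.foldl_append, run_T1 P hβ]
  refine St.ext (funext fun j => ?_) rfl rfl
  cases h : β j
  · simp [op, h]
  · simp only [op, h, hβ, if_true, Bool.not_true, Bool.false_eq_true, if_false, hf_eC]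
    generalize (P (A (j + 1)).τ.1).i = i
    obtain ⟨k, b⟩ := i
    fin_cases k <;> cases b <;> simp [act_zero]

/-- the program -/
def prog (p : ℕ) : List Ins := alpha ++ pass true ++ pass false ++
  [snd false (3, true) 0 1, snd false (3, false) 0 1] ++ List.replicate p (snd false (0, false) 0 0)

theorem run_prog (p : ℕ) (A : ℤ → Sym H) (m n : ℤ → G H) :
    (prog p).foldl (step P β) ⟨A, m, n⟩ = ⟨fun j =>
      (φ P (!β j, A j) (!β (j + 1), A (j + 1)) (!β (j + 2), A (j + 2))).2, m, n⟩ := by
  have k : ∀ X : St H, (List.replicate p (snd false (0, false) 0 0)).foldl (step P β) X = X := by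
    induction p with
    | zero => exact fun X => rfl
    | succ p ih =>
      rintro ⟨A, m, n⟩
      rw [List.replicate_succ, List.foldl_cons, step_snd, ih]
      refine St.ext (funext fun j => ?_) rfl rfl
      simp [op, Prod.mk_zero_zero, act_zero]
  simp only [prog, List.foldl_append, k, run_alpha P hβ, run_pass P hβ, ad_ad, List.foldl_cons,
    List.foldl_nil, step_snd]
  refine St.ext (funext fun j => ?_) rfl rfl
  have h2 : β (j + 2) = β j := by rw [← one_add_one_eq_two, ← add_assoc, hβ, hβ, Bool.not_not]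
  cases h : β j
  · simp only [op, ad, h, if_true]
    rw [Z_ad P hβ false _ _ h]
    · have e : Z P true (fun j => if β j = true then act P (P (A (j + 1)).τ.1).i (cv P (A (j + 1)))
          (A j) else A j) j + Z P false (fun j => if β j = true then act P (P (A (j + 1)).τ.1).i
          (cv P (A (j + 1))) (A j) else A j) j = rv P (A j) (A (j + 1)) (A (j + 2)) := by
        simp only [Z, h, hβ, h2, add_assoc, one_add_one_eq_two]
        cases k2 : (A j).ty <;> rcases cv_GG P (A j).ty (A (j + 2)) with k | k <;>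
          (try rw [k2] at k) <;> simp [rv, k, act_zero, k2]
      rw [e]
      cases k2 : (A j).ty <;> simp [φ, T, U, hβ, h, h2, act, addr, k2, tk]
    · simp only [Z]
      split_ifs
      all_goals first | (rw [← one_mul (rv _ _ _ _)]; exact GG_addr P _ _ _ _ _) | rw [addr_zero]
  · simp [op, ad, h, hβ, φ, T, U]

end Pool.Agent.MP_88e1ca_an.Full
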