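import Pool.Agent.MP_88e1ca_an.Full.B

/-! Self-simulation, walls and cones. -/

set_option autoImplicit false

namespace Pool.Agent.MP_88e1ca_an.Full

variable {H : ℕ} (P : ZMod H → Ins)

/-- the global map -/
def F (x : ℤ → Cell H) : ℤ → Cell H := fun i => φ P (x i) (x (i + 1)) (x (i + 2))

/-- the inverse map -/
def Fi (x : ℤ → Cell H) : ℤ → Cell H := fun i => ψ P (x i) (x (i + 1)) (x (i + 2))

/-- the global map as a permutation -/
def Φ : Equiv.Perm (ℤ → Cell H) where
  toFun := F P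
  invFun := Fi P
  left_inv x := funext fun i => by
    simp only [F, Fi, add_assoc, one_add_one_eq_two]
    rw [show (1 : ℤ) + 2 = 2 + 1 by rfl, ψφ]
  right_inv x := funext fun i => by
    simp only [F, Fi, add_assoc, one_add_one_eq_two]
    rw [show (1 : ℤ) + 2 = 2 + 1 by rfl, φψ]

/-- active clock values -/
def clk (h : ZMod H) : G H := (h, (P h).r)

theorem tk_clk (v : G H) (h : ZMod H) : tk P v (clk P h) = clk P (h + v.1) := by simp [tk, clk]

/-- the configuration that holds a state of the register machine -/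
def emb (a : ℤ) (β : ℤ → Bool) (τ : G H) (w : ℤ → G H) (X : St H) (x : ℤ) : Cell H :=
  if (x - a) % 2 = 0 then (false, X.A ((x - a) / 2)) else
    (true, ⟨τ, β ((x - a) / 2), X.m ((x - a) / 2), X.n ((x - a) / 2), w ((x - a) / 2)⟩)

theorem emb0 (a : ℤ) (β : ℤ → Bool) (τ : G H) (w : ℤ → G H) (X : St H) (j : ℤ) :
    emb a β τ w X (a + 2 * j) = (false, X.A j) := by
  rw [emb, if_pos (by omega), show (a + 2 * j - a) / 2 = j by omega]

theorem emb1 (a : ℤ) (β : ℤ → Bool) (τ : G H) (w : ℤ → G H) (X : St H) (j : ℤ) :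
    emb a β τ w X (a + 2 * j + 1) = (true, ⟨τ, β j, X.m j, X.n j, w j⟩) := by
  rw [emb, if_neg (by omega), show (a + 2 * j + 1 - a) / 2 = j by omega]

theorem par (a x : ℤ) : ∃ j, x = a + 2 * j ∨ x = a + 2 * j + 1 := ⟨(x - a) / 2, by omega⟩

theorem F_emb {β : ℤ → Bool} (hβ : ∀ j, β (j + 1) = !β j) (a : ℤ) (h : ZMod H) (w : ℤ → G H)
    (X : St H) : F P (emb a β (clk P h) w X) = emb a β (clk P (h + 1)) w (step P β X (P h)) := by
  funext x
  obtain ⟨j, rfl | rfl⟩ := par a x
  · simp [F, emb0, emb1, φ, T, U, step, cv, clk]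
  · rw [F, show a + 2 * j + 1 + 1 = a + 2 * (j + 1) by ring,
      show a + 2 * j + 1 + 2 = a + 2 * (j + 1) + 1 by ring]
    simp only [emb0, emb1]
    simp [φ, T, U, step, rv, GG, addr, hβ, tk, clk]

theorem F_iter {β : ℤ → Bool} (hβ : ∀ j, β (j + 1) = !β j) (a : ℤ) (w : ℤ → G H) (X : St H)
    (d : ℕ) : (F P)^[d] (emb a β (clk P 0) w X) =
      emb a β (clk P d) w (((List.range d).map fun i : ℕ => P i).foldl (step P β) X) := by
  induction d with
  | zero => simp
  | succ d ih =>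
    rw [Function.iterate_succ_apply', ih, F_emb P hβ, List.range_succ]
    simp

/-- the rule holds in the columns `a, …, b` -/
def Dia (a b : ℤ) (y : ℤ → ℤ → Cell H) : Prop :=
  ∀ t x, a ≤ x → x ≤ b → y (t + 1) x = φ P (y t x) (y t (x + 1)) (y t (x + 2))

variable {P} {a b : ℤ} {y y' : ℤ → ℤ → Cell H}

theorem Dia.fwd (h : Dia P a b y) {c t : ℤ} {z : ℤ → Cell H} (hc : c ≤ b)
    (e : ∀ x, a ≤ x → x ≤ c → y t x = z x) (d : ℕ) :
    ∀ x, a ≤ x → x + 2 * d ≤ c → y (t + d) x = (F P)^[d] z x := by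
  induction d with
  | zero => exact fun x h1 h2 => by simpa using e x h1 (by omega)
  | succ d ih =>
    intro x h1 h2
    push_cast at h2
    rw [Function.iterate_succ_apply', F, Nat.cast_succ, ← add_assoc, h _ x h1 (by omega),
      ih x h1 (by omega), ih _ (by omega) (by omega), ih _ (by omega) (by omega)]

theorem Dia.back (h : Dia P a b y) (t x : ℤ) (h1 : a ≤ x) (h2 : x + 2 ≤ b) :
    y t x = ψ P (y (t + 1) x) (y (t + 1) (x + 1)) (y (t + 1) (x + 2)) := by
  rw [h t x h1 (by omega), h t (x + 1) (by omega) (by omega), h t (x + 2) (by omega) h2,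
    show x + 1 + 1 = x + 2 by ring, show x + 1 + 2 = x + 2 + 1 by ring, ψφ]

theorem Dia.tri (h : Dia P a b y) (h' : Dia P a b y') {c s : ℤ} (hc : c ≤ b)
    (e : ∀ x, a ≤ x → x ≤ c → y s x = y' s x) (t x : ℤ) (h1 : a ≤ x)
    (h2 : x + 2 * |t - s| ≤ c) : y t x = y' t x := by
  rcases le_total s t with k | k
  · obtain ⟨d, rfl⟩ := Int.le.dest k
    rw [add_sub_cancel_left, Nat.abs_cast] at h2
    rw [h.fwd hc e d x h1 h2, h'.fwd hc (fun _ _ _ => rfl) d x h1 h2]
  · obtain ⟨d, rfl⟩ := Int.le.dest k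
    rw [sub_add_cancel_left, abs_neg, Nat.abs_cast] at h2
    clear k
    induction d generalizing t x with
    | zero => simpa using e x h1 (by omega)
    | succ d ih =>
      push_cast at h2
      have := ih (t + 1) (e := by
        rwa [show t + 1 + d = t + (d + 1 : ℕ) by push_cast; ring])
      rw [h.back t x h1 (by omega), h'.back t x h1 (by omega), this x h1 (by omega),
        this _ (by omega) (by omega), this _ (by omega) (by omega)]

theorem const_step {α : Type} (f : ℤ → α) (h : ∀ t, f (t + 1) = f t) (s t : ℤ) : f t = f s := by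
  have : ∀ t, f t = f 0 := fun t => by
    induction t using Int.induction_on with
    | zero => rfl
    | succ i ih => rw [h, ih]
    | pred i ih => rw [← ih, ← h, sub_add_cancel]
  rw [this, this s]

theorem Dia.stat (h : Dia P a b y) {x : ℤ} (h1 : a ≤ x) (h2 : x ≤ b) (s t : ℤ) :
    (y t x).1 = (y s x).1 ∧ ((y s x).1 = true → (y t x).2.ty = (y s x).2.ty ∧
      (y t x).2.τ = tk P (t - s : ℤ) (y s x).2.τ) := by
  have := const_step (fun t => ((y t x).1, if (y t x).1 then
      ((y t x).2.ty, tk P (-t : ℤ) (y t x).2.τ) else (false, 0))) (fun t => by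
    rw [h t x h1 h2]
    cases k : (y t x).1 <;> simp only [φ, T, U, k, if_true, Bool.false_eq_true, if_false]
    split_ifs <;> simp [addr, tk_add]) s t
  simp only [Prod.mk.injEq] at this
  refine ⟨this.1, fun k => ?_⟩
  have e := this.2
  rw [if_pos k, if_pos (this.1.trans k), Prod.mk.injEq] at e
  refine ⟨e.1, ?_⟩
  have := congrArg (tk P (t : ℤ)) e.2
  simpa [tk_add, tk_zero, neg_add_eq_sub] using this

variable (P) in
/-- no wall at the place `W` -/
def Open (z : ℤ → Cell H) (W : ℤ) : Prop :=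
  ((z W).1 = false → (z (W + 1)).1 = true) ∧ ((z W).1 = true → (z (W + 1)).1 = false ∧
    (z (W + 2)).1 = true ∧ (z (W + 2)).2.τ = (z W).2.τ ∧ (z (W + 2)).2.ty = !(z W).2.ty ∧
    (z W).2.τ.2 = (P (z W).2.τ.1).r)

theorem Dia.opn (h : Dia P a b y) {W s : ℤ} (h1 : a ≤ W) (h2 : W + 2 ≤ b) (k : Open P (y s) W)
    (t : ℤ) : Open P (y t) W := by
  have e0 := h.stat h1 (by omega) s t
  have e1 := h.stat (x := W + 1) (by omega) (by omega) s t
  have e2 := h.stat (x := W + 2) (by omega) h2 s t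
  refine ⟨fun q => e1.1.trans (k.1 (e0.1 ▸ q)), fun q => ?_⟩
  have q' := e0.1 ▸ q
  obtain ⟨k1, k2, k3, k4, k5⟩ := k.2 q'
  refine ⟨e1.1.trans k1, e2.1.trans k2, by rw [(e2.2 k2).2, (e0.2 q').2, k3],
    by rw [(e2.2 k2).1, (e0.2 q').1, k4], ?_⟩
  rw [(e0.2 q').2]
  simp [tk, k5]

theorem wall {z : ℤ → Cell H} {W : ℤ} (k : ¬ Open P z W) (o : Sym H) :
    φ P (z W) (z (W + 1)) (z (W + 2)) = φ P (z W) (false, o) (false, o) ∧
      ∀ c, φ P c (z W) (z (W + 1)) = φ P c (z W) (false, o) := by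
  simp only [Open] at k
  generalize z W = c0 at *
  generalize z (W + 1) = c1 at *
  generalize z (W + 2) = c2 at *
  obtain ⟨f0, s0⟩ := c0
  obtain ⟨f1, s1⟩ := c1
  obtain ⟨f2, s2⟩ := c2
  cases f0 <;> cases f1 <;> cases f2 <;> simp [φ, U] at k ⊢
  have : rv P s0 s1 s2 = 0 := by
    simp only [rv, GG]
    split_ifs with h1 h2
    · exact absurd (h1 ▸ h2.2) (k h1.symm (Bool.eq_not.2 h2.1))
    · exact mul_zero _
    · rfl
  rw [this, addr_zero]

theorem Dia.cut (h : Dia P a b y) {W s : ℤ} (h1 : a ≤ W) (h2 : W + 2 ≤ b) (k : ¬ Open P (y s) W)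
    (o : Sym H) (c : ℤ) : Dia P a c fun t x => if x ≤ W then y t x else (false, o) := by
  intro t x h3 _
  have := wall (fun q => k (h.opn h1 h2 q s) : ¬ Open P (y t) W) o
  rcases lt_trichotomy (x + 1) W with q | rfl | q
  · simp only [if_pos (show x ≤ W by omega), if_pos (show x + 1 ≤ W by omega),
      if_pos (show x + 2 ≤ W by omega), h t x h3 (by omega)]
  · simp only [if_pos (show x ≤ x + 1 by omega), if_pos le_rfl,
      if_neg (show ¬ x + 2 ≤ x + 1 by omega), h t x h3 (by omega)]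
    rw [← this.2, add_assoc, one_add_one_eq_two]
  · simp only [if_neg (show ¬ x + 1 ≤ W by omega), if_neg (show ¬ x + 2 ≤ W by omega)]
    split_ifs with q'
    · obtain rfl : x = W := by omega
      rw [h t x h3 (by omega), this.1]
    · simp [φ, U, T]

end Pool.Agent.MP_88e1ca_an.Full
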