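import Pool.Agent.MP_88e1ca_an.Full.C

/-! The radius of the powers and the order. -/

set_option autoImplicit false

namespace Pool.Agent.MP_88e1ca_an.Full

variable {H : ℕ} {P : ZMod H → Ins}

/-- data and relays alternate, the clocks agree and the types follow `β` -/
def Good (e : ℤ) (β : ℤ → Bool) (τ : G H) (z : ℤ → Cell H) (a c : ℤ) : Prop :=
  ∀ j, (a ≤ e + 2 * j → e + 2 * j ≤ c → (z (e + 2 * j)).1 = false) ∧
    (a ≤ e + 2 * j + 1 → e + 2 * j + 1 ≤ c → (z (e + 2 * j + 1)).1 = true ∧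
      (z (e + 2 * j + 1)).2.τ = τ ∧ (z (e + 2 * j + 1)).2.ty = β j)

theorem good {z : ℤ → Cell H} {a c : ℤ} (hc : a + 1 ≤ c) (h : ∀ W, a ≤ W → W ≤ c → Open P z W) :
    ∃ (e : ℤ) (β : ℤ → Bool) (k : ZMod H), a - 1 ≤ e ∧ e ≤ a ∧ (∀ j, β (j + 1) = !β j) ∧
      Good e β (clk P k) z a c := by
  obtain ⟨e, h1, h2, h3, h4⟩ : ∃ e, a - 1 ≤ e ∧ e ≤ a ∧ (z (e + 1)).1 = true ∧
      (a ≤ e → (z e).1 = false) := by
    cases k : (z a).1
    · exact ⟨a, by omega, le_rfl, (h a le_rfl (by omega)).1 k, fun _ => k⟩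
    · exact ⟨a - 1, le_rfl, by omega, by simpa using k, fun _ => by omega⟩
  have hβ : ∀ j : ℤ, xor (z (e + 1)).2.ty (decide ((j + 1) % 2 = 1)) =
      !xor (z (e + 1)).2.ty (decide (j % 2 = 1)) := fun j => by
    rcases Int.emod_two_eq_zero_or_one j with k | k
    · simp [k, show (j + 1) % 2 = 1 by omega]
    · simp [k, show (j + 1) % 2 = 0 by omega]
  have key : ∀ d : ℕ, e + 2 * d + 1 ≤ c → (z (e + 2 * d + 1)).1 = true ∧
      (z (e + 2 * d + 1)).2.τ = clk P (z (e + 1)).2.τ.1 ∧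
      (z (e + 2 * d + 1)).2.ty = xor (z (e + 1)).2.ty (decide ((d : ℤ) % 2 = 1)) := fun d => by
    induction d with
    | zero =>
      intro _
      simp only [Nat.cast_zero, mul_zero, add_zero]
      exact ⟨h3, Prod.ext rfl ((h _ (by omega) (by omega)).2 h3).2.2.2.2, by simp⟩
    | succ d ih =>
      intro k
      push_cast at k ⊢
      obtain ⟨q1, q2, q3⟩ := ih (by omega)
      obtain ⟨-, r1, r2, r3, -⟩ := (h (e + 2 * d + 1) (by omega) (by omega)).2 q1
      rw [show e + 2 * (d + 1 : ℤ) + 1 = e + 2 * d + 1 + 2 by ring, hβ, r2, r3, q3]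
      exact ⟨r1, q2, rfl⟩
  refine ⟨e, fun j => xor (z (e + 1)).2.ty (decide (j % 2 = 1)), (z (e + 1)).2.τ.1, h1, h2, hβ,
    fun j => ⟨fun k1 k2 => ?_, fun k1 k2 => ?_⟩⟩
  · rcases eq_or_ne j 0 with rfl | k
    · simpa using h4 (by omega)
    · obtain ⟨d, rfl⟩ : ∃ d : ℕ, j = d + 1 := ⟨(j - 1).toNat, by omega⟩
      rw [show e + 2 * (d + 1 : ℤ) = e + 2 * d + 1 + 1 by ring]
      exact ((h _ (by omega) (by omega)).2 (key d (by omega)).1).1
  · obtain ⟨d, rfl⟩ : ∃ d : ℕ, j = d := ⟨j.toNat, by omega⟩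
    exact key d k2

variable [NeZero H] {p : ℕ} (hP : ((List.range H).map fun i : ℕ => P i) = prog p)
include hP

omit [NeZero H] in
theorem F_cycle {β : ℤ → Bool} (hβ : ∀ j, β (j + 1) = !β j) (a : ℤ) (w : ℤ → G H)
    (A : ℤ → Sym H) (m n : ℤ → G H) : (F P)^[H] (emb a β (clk P 0) w ⟨A, m, n⟩) =
      emb a β (clk P 0) w ⟨fun j => (F P (fun j => (!β j, A j)) j).2, m, n⟩ := by
  rw [F_iter P hβ, hP, run_prog P hβ, ZMod.natCast_self]
  rfl

theorem sim {a b c e s : ℤ} {y : ℤ → ℤ → Cell H} {β : ℤ → Bool} {k : ZMod H} (h : Dia P a b y)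
    (hc : c ≤ b) (hβ : ∀ j, β (j + 1) = !β j) (g : Good e β (clk P k) (y s) a c) :
    (∀ i J, a ≤ e + 2 * i → e + 2 * J + 2 * H ≤ c →
      Dia P i J fun u j => (!β j, (y (s - k.val + u * H) (e + 2 * j)).2)) ∧
    ∀ u j, a ≤ e + 2 * j + 1 → e + 2 * j + 1 + 2 * H ≤ c →
      y (s - k.val + u * H) (e + 2 * j + 1) = y (s - k.val) (e + 2 * j + 1) := by
  have g' : ∀ u : ℤ, Good e β (clk P 0) (y (s - k.val + u * H)) a c := fun u j => by
    refine ⟨fun k1 k2 => (h.stat k1 (by omega) s _).1.trans ((g j).1 k1 k2), fun k1 k2 => ?_⟩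
    obtain ⟨q1, q2, q3⟩ := (g j).2 k1 k2
    obtain ⟨r1, r2⟩ := h.stat k1 (k2.trans hc) s (s - k.val + u * H)
    refine ⟨r1.trans q1, ?_, (r2 q1).1.trans q3⟩
    rw [(r2 q1).2, q2, tk_clk]
    simp
  have key : ∀ u x : ℤ, a ≤ x → x + 2 * H ≤ c → y (s - k.val + (u + 1) * H) x = emb e β (clk P 0)
      (fun j => (y (s - k.val + u * H) (e + 2 * j + 1)).2.w)
      ⟨fun j => (F P (fun j => (!β j, (y (s - k.val + u * H) (e + 2 * j)).2)) j).2,
        fun j => (y (s - k.val + u * H) (e + 2 * j + 1)).2.m,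
        fun j => (y (s - k.val + u * H) (e + 2 * j + 1)).2.n⟩ x := fun u x k1 k2 => by
    rw [← F_cycle hP hβ, add_mul, one_mul, ← add_assoc]
    refine h.fwd hc (fun x k1 k2 => ?_) H x k1 k2
    obtain ⟨j, rfl | rfl⟩ := par e x
    · rw [emb0]
      exact Prod.ext ((g' u j).1 k1 k2) rfl
    · obtain ⟨q1, q2, q3⟩ := (g' u j).2 k1 k2
      rw [emb1]
      exact Prod.ext q1 (Sym.ext q2 q3 rfl rfl rfl)
  refine ⟨fun i J k1 k2 u j k3 k4 => Prod.ext (by simp [φ, T, U]) ?_, fun u j k1 k2 => ?_⟩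
  · show (y _ _).2 = _
    rw [key u _ (by omega) (by omega), emb0]
    rfl
  · have := const_step (fun u : ℤ => y (s - k.val + u * H) (e + 2 * j + 1)) (fun u => by
      obtain ⟨q1, q2, q3⟩ := (g' u j).2 k1 (by omega)
      rw [key u _ k1 k2, emb1]
      exact Prod.ext q1.symm (Sym.ext q2.symm q3.symm rfl rfl rfl)) 0 u
    simpa using this

theorem cone (k : ℕ) : ∀ (a b s : ℤ) (y y' : ℤ → ℤ → Cell H), Dia P a b y → Dia P a b y' →
    a + (4 * H + 5) * (2 ^ (k + 1) - 1) ≤ b → (∀ x, a ≤ x → x ≤ b → y s x = y' s x) →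
    ∀ t, |t - s| ≤ H ^ k → y t a = y' t a := by
  induction k with
  | zero =>
    intro a b s y y' h h' hb e t ht
    exact h.tri h' le_rfl e t a le_rfl (by norm_num at hb ht; omega)
  | succ k ih =>
    intro a b s y y' h h' hb e t ht
    have hH : (0 : ℤ) < H := by exact_mod_cast NeZero.pos H
    obtain ⟨R, hR, hR0, hb⟩ : ∃ R : ℤ, R = (4 * H + 5) * (2 ^ (k + 1) - 1) ∧ 0 ≤ R ∧
        a + 2 * R + 4 * H + 5 ≤ b := ⟨_, rfl, mul_nonneg (by omega)
          (sub_nonneg.2 (one_le_pow₀ (by norm_num))), by rw [pow_succ] at hb; linarith⟩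
    rw [← hR] at ih
    by_cases hw : ∀ W, a ≤ W → W ≤ b - 2 → Open P (y s) W
    · obtain ⟨c, β, q, h1, h2, hβ, g⟩ := good (by omega) hw
      have g' : Good c β (clk P q) (y' s) a (b - 2) := fun j =>
        ⟨fun k1 k2 => e _ k1 (by omega) ▸ (g j).1 k1 k2,
          fun k1 k2 => e _ k1 (by omega) ▸ (g j).2 k1 k2⟩
      obtain ⟨s1, s2⟩ := sim hP h (by omega) hβ g
      obtain ⟨s1', s2'⟩ := sim hP h' (by omega) hβ g'
      have hq : (q.val : ℤ) < H := by exact_mod_cast q.val_lt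
      have e0 : ∀ x, a ≤ x → x + 2 * H ≤ b → y (s - q.val) x = y' (s - q.val) x :=
        fun x k1 k2 => h.tri h' le_rfl e _ x k1 (by
          rw [sub_sub_cancel_left, abs_neg, Nat.abs_cast]; omega)
      obtain ⟨u, v, v0, v1, rfl⟩ : ∃ u v : ℤ, 0 ≤ v ∧ v < H ∧ t = s - q.val + u * H + v :=
        ⟨(t - s + q.val) / H, (t - s + q.val) % H, Int.emod_nonneg _ hH.ne',
          Int.emod_lt_of_pos _ hH, by linarith [Int.ediv_mul_add_emod (t - s + q.val) H]⟩
      have hu : |u - 0| ≤ H ^ k := by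
        rw [abs_le, pow_succ] at ht
        rw [abs_le]
        constructor <;> by_contra k <;> nlinarith [ht.1, ht.2]
      refine h.tri h' (c := a + 2 * H) (s := s - q.val + u * H) (by omega) (fun x k1 k2 => ?_) _ a
        le_rfl (by rw [add_sub_cancel_left, abs_of_nonneg v0]; omega)
      obtain ⟨j, rfl | rfl⟩ := par c x
      · have := ih j (j + R) 0 _ _ (s1 j _ k1 (by omega)) (s1' j _ k1 (by omega)) le_rfl
          (fun i i1 i2 => by
            simp only [zero_mul, add_zero]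
            rw [e0 _ (by omega) (by omega)]) u hu
        refine Prod.ext ?_ (Prod.mk.inj this).2
        rw [(h.stat k1 (by omega) s _).1, (h'.stat k1 (by omega) s _).1, e _ k1 (by omega)]
      · rw [s2 u j k1 (by omega), s2' u j k1 (by omega), e0 _ k1 (by omega)]
    · push Not at hw
      obtain ⟨W, h1, h2, h3⟩ := hw
      have h3' : ¬ Open P (y' s) W := by
        simpa only [Open, e W h1 (by omega), e (W + 1) (by omega) (by omega),
          e (W + 2) (by omega) (by omega)] using h3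
      have := (h.cut h1 (by omega) h3 (y s a).2 (a + 2 * |t - s|)).tri
        (h'.cut h1 (by omega) h3' (y s a).2 _) (s := s) le_rfl (fun x k1 _ => by
          split_ifs
          · exact e x k1 (by omega)
          · rfl) t a le_rfl le_rfl
      simpa only [if_pos h1] using this

theorem radius (k n : ℕ) (hn : n ≤ H ^ k) (x x' : ℤ → Cell H) (i : ℤ)
    (e : ∀ j, i ≤ j → j ≤ i + (4 * H + 5) * 2 ^ (k + 1) → x j = x' j) :
    (F P)^[n] x i = (F P)^[n] x' i := by
  have d : ∀ (x : ℤ → Cell H) (a b : ℤ), Dia P a b fun t => (Φ P ^ t) x := fun x a b t j _ _ => by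
    show (Φ P ^ (t + 1)) x j = _
    rw [add_comm, zpow_one_add]
    rfl
  have := cone hP k i (i + (4 * H + 5) * 2 ^ (k + 1)) 0 _ _ (d x _ _) (d x' _ _)
    (by have : (0 : ℤ) ≤ H := Nat.cast_nonneg H; linarith) e n (by
      rw [sub_zero, Nat.abs_cast]; exact_mod_cast hn)
  simp only [zpow_natCast, Equiv.Perm.coe_pow] at this
  exact this

omit [NeZero H] in
theorem order (h2 : 2 ≤ H) (n : ℕ) (hn : 1 ≤ n) :
    ¬ ∀ x : ℤ → Cell H, (∀ j, (x (j + 1)).1 = !(x j).1) → (F P)^[n] x = x := by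
  induction n using Nat.strong_induction_on with
  | _ n ih =>
  intro h
  have alt : ∀ β τ w (X : St H) j, (emb 0 β τ w X (j + 1)).1 = !(emb 0 β τ w X j).1 := by
    intro β τ w X j
    obtain ⟨j, rfl | rfl⟩ := par 0 j
    · simp only [emb0, emb1, Bool.not_false]
    · rw [show 0 + 2 * j + 1 + 1 = 0 + 2 * (j + 1) by ring]
      simp only [emb0, emb1, Bool.not_true]
  have hβ : ∀ j : ℤ, decide ((j + 1) % 2 = 1) = !decide (j % 2 = 1) := fun j => by
    rcases Int.emod_two_eq_zero_or_one j with k | k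
    · simp [k, show (j + 1) % 2 = 1 by omega]
    · simp [k, show (j + 1) % 2 = 0 by omega]
  have := congrFun (h _ (alt (fun j => decide (j % 2 = 1)) (clk P 0) 0
    ⟨fun _ => ⟨0, true, 0, 0, 0⟩, 0, 0⟩)) (0 + 2 * 0 + 1)
  rw [F_iter P hβ, emb1, emb1] at this
  obtain ⟨d, rfl⟩ := (ZMod.natCast_eq_zero_iff n H).1 (congrArg (fun c => c.2.τ.1) this)
  have hd : 1 ≤ d := Nat.pos_of_mul_pos_left hn
  refine ih d (by nlinarith) hd fun x hx => ?_
  have fl : ∀ d j, ((F P)^[d] x j).1 = (x j).1 := fun d j => by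
    induction d with
    | zero => rfl
    | succ d ih => rw [Function.iterate_succ_apply', ← ih]; simp [F, φ, T, U]
  have key : ∀ d, (F P)^[H * d] (emb 0 (fun j => !(x j).1) (clk P 0) 0 ⟨fun j => (x j).2, 0, 0⟩) =
      emb 0 (fun j => !(x j).1) (clk P 0) 0 ⟨fun j => ((F P)^[d] x j).2, 0, 0⟩ := fun d => by
    induction d with
    | zero => rfl
    | succ d ih =>
      rw [Nat.mul_succ, add_comm, Function.iterate_add_apply, ih,
        F_cycle hP (fun j => by rw [hx]), Function.iterate_succ_apply']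
      simp only [Bool.not_not, ← fl d]
  funext j
  have := congrFun ((key d).symm.trans (h _ (alt _ _ _ _))) (0 + 2 * j)
  rw [emb0, emb0] at this
  exact Prod.ext (fl d j) (Prod.mk.inj this).2

end Pool.Agent.MP_88e1ca_an.Full
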