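import Pool.Agent.MP_88e1ca_an.Full.D
import Pool.Agent.MP_88e1ca_an.Min.B

/-! The fixed point table and the growth bound. -/

set_option autoImplicit false

namespace Pool.Agent.MP_88e1ca_an.Full

instance (H : ℕ) [NeZero H] : Finite (Sym H) :=
  Finite.of_injective (fun s : Sym H => (s.τ, s.ty, s.m, s.n, s.w)) fun _ _ h => by
    simp only [Prod.mk.injEq] at h
    exact Sym.ext h.1 h.2.1 h.2.2.1 h.2.2.2.1 h.2.2.2.2

theorem table (d : ℕ) : ∃ (H p : ℕ) (P : ZMod H → Ins), 2 ^ d ≤ H ∧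
    ((List.range H).map fun i : ℕ => P i) = prog p := by
  refine ⟨(prog (2 ^ d)).length, 2 ^ d, fun h => (prog (2 ^ d)).getD h.val (rd true true 0 true 0),
    ?_, List.ext_getElem (by simp) fun i h1 h2 => ?_⟩
  · rw [prog, List.length_append, List.length_replicate]
    exact Nat.le_add_left _ _
  · simp [Nat.mod_eq_of_lt h2, h2]

theorem growth {H d : ℕ} {ε : ℝ} (hd : 1 ≤ d * ε) (hH : 2 ^ d ≤ H) (n : ℕ) (hn : 1 ≤ n) :
    (((4 * H + 5) * 2 ^ (Nat.clog H n + 1) : ℕ) : ℝ) ≤ 4 * (4 * H + 5) * (n : ℝ) ^ ε := by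
  have hε : 0 ≤ ε := by
    by_contra h
    nlinarith [(Nat.cast_nonneg d : (0 : ℝ) ≤ d)]
  have h1 : (1 : ℝ) ≤ n := by exact_mod_cast hn
  have : (2 : ℝ) ^ (Nat.clog H n + 1) ≤ 4 * (n : ℝ) ^ ε := by
    rcases h : Nat.clog H n with _ | k
    · norm_num
      linarith [Real.one_le_rpow h1 hε]
    · have h2 : H ^ k < n := Nat.pow_lt_of_lt_clog (by omega)
      have h3 : ((2 : ℝ) ^ k) ^ (d : ℝ) ≤ n := by
        rw [Real.rpow_natCast, ← pow_mul, mul_comm, pow_mul]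
        exact_mod_cast (Nat.pow_le_pow_left hH k).trans h2.le
      have h4 := Real.rpow_le_rpow (by positivity) h3 hε
      rw [← Real.rpow_mul (by positivity)] at h4
      have h5 := Real.self_le_rpow_of_one_le (one_le_pow₀ (n := k) (by norm_num : (1 : ℝ) ≤ 2)) hd
      rw [pow_succ, pow_succ]
      linarith
  push_cast
  nlinarith [(Nat.cast_nonneg H : (0 : ℝ) ≤ H)]

end Pool.Agent.MP_88e1ca_an.Full
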